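import Pool.Agent.H42SY.Defs

/-! The sum of the additional term of the six-vertex flags over all six-tuples. -/

set_option autoImplicit false
set_option maxRecDepth 100000
set_option maxHeartbeats 4000000
open Finset
open scoped Classical

namespace Pool.Agent.H42SY
open Pool.Agent.H122R2.N6 Pool.Agent.H37R3.Pen

section
variable {V : Type} [Fintype V]

/-- `x y z` is the only edge on `x, y, z, w`, and `v, w` form an edge with each of `x, y, z` -/
def Kp (E : V → V → V → ℕ) (x y z w v : V) : Prop :=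
  (E x y z = 1 ∧ E x y w = 0 ∧ E x z w = 0 ∧ E y z w = 0) ∧ E x w v = 1 ∧ E y w v = 1 ∧ E z w v = 1

theorem gd_iff {E : V → V → V → ℕ} (hE : Sy E) (x y z w v : V) :
    gd (E x y z) (E x y w) (E x z w) (E y z w) (E x w v) (E y w v) (E z w v) = true ↔
      Kp E x y z w v := by
  constructor
  · intro h
    unfold gd at h
    simp only [Bool.and_eq_true] at h
    obtain ⟨h1, h2, h3⟩ := h
    have e1 := Nat.eq_of_beq_eq_true h1
    have e2 : E x y w + (E x z w + E y z w) = 0 := Nat.eq_of_beq_eq_true h2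
    have e3 : E x w v + (E y w v + E z w v) = 3 := Nat.eq_of_beq_eq_true h3
    have b1 := hE.b x w v
    have b2 := hE.b y w v
    have b3 := hE.b z w v
    unfold Bt at b1 b2 b3
    refine ⟨⟨e1, ?_, ?_, ?_⟩, ?_, ?_, ?_⟩ <;> omega
  · rintro ⟨⟨h1, h2, h3, h4⟩, h5, h6, h7⟩
    unfold gd
    rw [h1, h2, h3, h4, h5, h6, h7]
    rfl

theorem mo_val {A B O xyz xyw xzw yzw xwv ywv zwv : ℕ} (h : gd xyz xyw xzw yzw xwv ywv zwv = true)
    (xyv xzv yzv xyu xzu yzu xwu ywu zwu : ℕ) (hB : 3 * B ≤ O) (h1 : Bt xwu) (h2 : Bt ywu)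
    (h3 : Bt zwu) :
    (mo A B O xyz xyw xzw yzw xyv xzv yzv xwv ywv zwv xyu xzu yzu xwu ywu zwu : ℤ)
      = O + B * ((1 - 2 * (xwu : ℤ)) + (1 - 2 * (ywu : ℤ)) + (1 - 2 * (zwu : ℤ))) := by
  have l1 := Bt_lt h1
  have l2 := Bt_lt h2
  have l3 := Bt_lt h3
  have e : mo A B O xyz xyw xzw yzw xyv xzv yzv xwv ywv zwv xyu xzu yzu xwu ywu zwu =
      O + 3 * B - 2 * B * (xwu + (ywu + zwu)) := by
    unfold mo
    rw [h]
    rfl
  have hle : 2 * B * (xwu + (ywu + zwu)) ≤ O + 3 * B := by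
    have : 2 * B * (xwu + (ywu + zwu)) ≤ 2 * B * 3 := Nat.mul_le_mul_left _ (by omega)
    omega
  rw [e, Nat.cast_sub hle]
  push_cast
  ring

theorem mo_off {A B O xyz xyw xzw yzw xwv ywv zwv : ℕ} (h : gd xyz xyw xzw yzw xwv ywv zwv = false)
    (xyv xzv yzv xyu xzu yzu xwu ywu zwu : ℕ) :
    mo A B O xyz xyw xzw yzw xyv xzv yzv xwv ywv zwv xyu xzu yzu xwu ywu zwu = O := by
  unfold mo
  rw [h]
  rfl

/-- the term of the vertex `p` -/
noncomputable def kd (E : V → V → V → ℕ) (p x y z w v : V) : ℤ :=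
  if Kp E x y z w v then (Fintype.card V : ℤ) - 2 * ∑ u, (E p w u : ℤ) else 0

noncomputable def SK (E : V → V → V → ℕ) : ℤ := ∑ x, ∑ y, ∑ z, ∑ w, ∑ v, kd E x x y z w v

theorem const_sum (c : ℤ) : ∑ _u : V, c = c * (Fintype.card V : ℤ) := by
  rw [sum_const, card_univ, nsmul_eq_mul, mul_comm]

theorem inner_Mo {E : V → V → V → ℕ} (hE : Sy E) (A B O : ℕ) (hB : 3 * B ≤ O) (x y z w v : V) :
    ∑ u, (Mo E A B O x y z w v u : ℤ) = (O : ℤ) * (Fintype.card V : ℤ)
      + B * (kd E x x y z w v + kd E y x y z w v + kd E z x y z w v) := by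
  by_cases hK : Kp E x y z w v
  · have hg := (gd_iff hE x y z w v).2 hK
    have e : ∀ u, (Mo E A B O x y z w v u : ℤ) = O + B * ((1 - 2 * (E x w u : ℤ)) +
        (1 - 2 * (E y w u : ℤ)) + (1 - 2 * (E z w u : ℤ))) := by
      intro u
      unfold Mo
      exact mo_val hg _ _ _ _ _ _ _ _ _ hB (hE.b _ _ _) (hE.b _ _ _) (hE.b _ _ _)
    unfold kd
    rw [if_pos hK, if_pos hK, if_pos hK, sum_congr rfl fun u _ => e u, sum_add_distrib, const_sum,
      ← mul_sum, sum_add_distrib, sum_add_distrib, sum_sub_distrib, sum_sub_distrib,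
      sum_sub_distrib, const_sum, ← mul_sum, ← mul_sum, ← mul_sum]
    ring
  · have hg : gd (E x y z) (E x y w) (E x z w) (E y z w) (E x w v) (E y w v) (E z w v) = false := by
      rw [← Bool.not_eq_true]
      exact fun h => hK ((gd_iff hE x y z w v).1 h)
    unfold kd
    rw [if_neg hK, if_neg hK, if_neg hK]
    have e : ∀ u, (Mo E A B O x y z w v u : ℤ) = O := by
      intro u
      unfold Mo
      rw [mo_off hg]
    rw [sum_congr rfl fun u _ => e u, const_sum]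
    ring

theorem sum3 (F : V → V → V → ℤ) :
    ∑ x, ∑ y, ∑ z, F x y z = ∑ z, ∑ y, ∑ x, F x y z := by
  calc ∑ x, ∑ y, ∑ z, F x y z = ∑ x, ∑ z, ∑ y, F x y z := sum_congr rfl fun x _ => sum_comm
    _ = ∑ z, ∑ x, ∑ y, F x y z := sum_comm
    _ = ∑ z, ∑ y, ∑ x, F x y z := sum_congr rfl fun z _ => sum_comm

theorem Kp_s1 {E : V → V → V → ℕ} (hE : Sy E) (x y z w v : V) : Kp E y x z w v ↔ Kp E x y z w v := by
  unfold Kp
  rw [hE.h213 x y z, hE.h213 x y w]
  tauto

theorem Kp_s2 {E : V → V → V → ℕ} (hE : Sy E) (x y z w v : V) : Kp E z y x w v ↔ Kp E x y z w v := by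
  unfold Kp
  have q1 : E z y x = E x y z := by rw [hE.h213 y z x, hE.h231 x y z]
  have q2 : E z y w = E y z w := hE.h213 y z w
  have q3 : E z x w = E x z w := hE.h213 x z w
  have q4 : E y x w = E x y w := hE.h213 x y w
  rw [q1, q2, q3, q4]
  tauto

theorem sum_Mo {E : V → V → V → ℕ} (hE : Sy E) (A B O : ℕ) (hB : 3 * B ≤ O) :
    (∑ x : Fin 6 → V, (Mo E A B O (x 0) (x 1) (x 2) (x 3) (x 4) (x 5) : ℤ)) =
      (O : ℤ) * (Fintype.card V : ℤ) ^ 6 + 3 * B * SK E := by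
  rw [conv6 (fun a b c d e f => (Mo E A B O a b c d e f : ℤ))]
  have h1 : ∑ x, ∑ y, ∑ z, ∑ w, ∑ v, ∑ u, (Mo E A B O x y z w v u : ℤ) =
      ∑ x : V, ∑ y : V, ∑ z : V, ∑ w : V, ∑ v : V, ((O : ℤ) * (Fintype.card V : ℤ)
      + B * (kd E x x y z w v + kd E y x y z w v + kd E z x y z w v)) :=
    sum_congr rfl fun x _ => sum_congr rfl fun y _ => sum_congr rfl fun z _ =>
      sum_congr rfl fun w _ => sum_congr rfl fun v _ => inner_Mo hE A B O hB x y z w v
  have h2 : ∑ x : V, ∑ y : V, ∑ z : V, ∑ w : V, ∑ _v : V, (Fintype.card V : ℤ)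
      = (Fintype.card V : ℤ) ^ 6 := by
    simp only [sum_const, card_univ, nsmul_eq_mul]
    ring
  have hS : SK E = ∑ x, ∑ y, ∑ z, ∑ w, ∑ v, kd E x x y z w v := rfl
  have s2 : ∑ x, ∑ y, ∑ z, ∑ w, ∑ v, kd E y x y z w v = SK E := by
    rw [hS, sum_comm]
    refine sum_congr rfl fun x _ => sum_congr rfl fun y _ => sum_congr rfl fun z _ =>
      sum_congr rfl fun w _ => sum_congr rfl fun v _ => ?_
    unfold kd
    exact if_congr (Kp_s1 hE x y z w v) rfl rfl
  have s3 : ∑ x, ∑ y, ∑ z, ∑ w, ∑ v, kd E z x y z w v = SK E := by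
    rw [hS, sum3 (fun x y z => ∑ w, ∑ v, kd E z x y z w v)]
    refine sum_congr rfl fun x _ => sum_congr rfl fun y _ => sum_congr rfl fun z _ =>
      sum_congr rfl fun w _ => sum_congr rfl fun v _ => ?_
    unfold kd
    exact if_congr (Kp_s2 hE x y z w v) rfl rfl
  rw [h1]
  simp only [sum_add_distrib, mul_add, ← mul_sum]
  rw [h2, s2, s3, ← hS]
  ring

end

end Pool.Agent.H42SY
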