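import Pool.Agent.H42SY.Fin

/-! The inequality of `H42SY.Fin` for 3-graphs on `Fin n`, with codegrees. -/

set_option autoImplicit false
set_option maxHeartbeats 1000000
open Finset

namespace Pool.Agent.H42SY.Res
open Pool.Agent.H122R2.N6 Pool.Agent.H42SY

/-- codegree -/
def codeg {n : ℕ} (H : Finset (Finset (Fin n))) (x y : Fin n) : ℕ :=
  (univ.filter fun z => ({x, y, z} : Finset (Fin n)) ∈ H).card

/-- `{x, y, z}` is an edge, and the only one on `x, y, z, w` -/
def OnlyEdge {n : ℕ} (H : Finset (Finset (Fin n))) (x y z w : Fin n) : Prop :=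
  ({x, y, z} : Finset (Fin n)) ∈ H ∧ ({x, y, w} : Finset (Fin n)) ∉ H ∧
    ({x, z, w} : Finset (Fin n)) ∉ H ∧ ({y, z, w} : Finset (Fin n)) ∉ H

/-- the pair `w, v` forms an edge with each of `x, y, z` -/
def Joined {n : ℕ} (H : Finset (Finset (Fin n))) (x y z w v : Fin n) : Prop :=
  ({x, w, v} : Finset (Fin n)) ∈ H ∧ ({y, w, v} : Finset (Fin n)) ∈ H ∧
    ({z, w, v} : Finset (Fin n)) ∈ H

open scoped Classical in
/-- the sum of `d(x,w) - n/2` -/
noncomputable def surplus {n : ℕ} (H : Finset (Finset (Fin n))) : ℝ :=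
  ∑ x, ∑ y, ∑ z, ∑ w, ∑ v, if OnlyEdge H x y z w ∧ Joined H x y z w v then
    (codeg H x w : ℝ) - n / 2 else 0

theorem set_eq {n : ℕ} (i j : DecidableEq (Fin n)) (x y z : Fin n) :
    (@insert _ _ (@Finset.instInsert _ i) x (@insert _ _ (@Finset.instInsert _ i) y {z}) :
      Finset (Fin n)) =
    @insert _ _ (@Finset.instInsert _ j) x (@insert _ _ (@Finset.instInsert _ j) y {z}) := by
  have h : i = j := Subsingleton.elim _ _
  subst h
  rfl

theorem tri_eq {n : ℕ} (H : Finset (Finset (Fin n))) (x y z : Fin n) :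
    tri H x y z = if ({x, y, z} : Finset (Fin n)) ∈ H then 1 else 0 := by
  have e := set_eq (fun a b => Classical.propDecidable (a = b)) (instDecidableEqFin n) x y z
  unfold tri
  split_ifs with h1 h2 h2
  · rfl
  · rw [e] at h1
    exact absurd h1 h2
  · rw [e] at h1
    exact absurd h2 h1
  · rfl

theorem tri_one {n : ℕ} (H : Finset (Finset (Fin n))) (x y z : Fin n) :
    (tri H x y z = 1) ↔ ({x, y, z} : Finset (Fin n)) ∈ H := by
  rw [tri_eq]
  split_ifs <;> simp_all

theorem tri_nil {n : ℕ} (H : Finset (Finset (Fin n))) (x y z : Fin n) :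
    (tri H x y z = 0) ↔ ({x, y, z} : Finset (Fin n)) ∉ H := by
  rw [tri_eq]
  split_ifs <;> simp_all

theorem sum_tri {n : ℕ} (H : Finset (Finset (Fin n))) (x y : Fin n) :
    ∑ u, (tri H x y u : ℤ) = (codeg H x y : ℤ) := by
  unfold codeg
  rw [Finset.card_filter]
  push_cast
  refine sum_congr rfl fun u _ => ?_
  rw [tri_eq]
  split_ifs <;> rfl

theorem sk_eq {n : ℕ} (H : Finset (Finset (Fin n))) :
    ((SK (tri H) : ℤ) : ℝ) = -2 * surplus H := by
  unfold SK surplus
  push_cast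
  simp only [mul_sum]
  refine sum_congr rfl fun x _ => sum_congr rfl fun y _ => sum_congr rfl fun z _ =>
    sum_congr rfl fun w _ => sum_congr rfl fun v _ => ?_
  unfold kd
  rw [sum_tri]
  have e : Kp (tri H) x y z w v ↔ (OnlyEdge H x y z w ∧ Joined H x y z w v) := by
    unfold Kp OnlyEdge Joined
    rw [tri_one, tri_nil, tri_nil, tri_nil, tri_one, tri_one, tri_one]
  by_cases h : OnlyEdge H x y z w ∧ Joined H x y z w v
  · rw [if_pos (e.2 h), if_pos h, Fintype.card_fin]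
    push_cast
    ring
  · rw [if_neg (fun h'' => h (e.1 h'')), if_neg h]
    simp

theorem main {n : ℕ} (H : Finset (Finset (Fin n))) (hH : ∀ e ∈ H, e.card = 3)
    (hF : ∀ S : Finset (Fin n), S.card = 4 → ∃ e ⊆ S, e.card = 3 ∧ e ∉ H) :
    54 * (n : ℝ) ^ 3 * H.card ≤ 5 * (n : ℝ) ^ 6 + 150 * surplus H := by
  have h := Ct.main hH hF
  rw [Fintype.card_fin] at h
  have h' : ((54 * (n : ℤ) ^ 3 * (H.card : ℤ) + 75 * SK (tri H) : ℤ) : ℝ) ≤
      ((5 * (n : ℤ) ^ 6 : ℤ) : ℝ) := by exact_mod_cast h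
  push_cast at h'
  rw [sk_eq] at h'
  linarith

end Pool.Agent.H42SY.Res
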